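import Pool.Agent.H59.L.S8.Y506.PV.Stm
import Pool.Agent.H59.L.S8.Y510.RG.Limw
import Pool.Agent.H59.L.S8.Y65.RG.Apx
import Pool.Agent.H59.L.S8.Y333.RG.Reg

/-!
# Limits of weights for the concentration property

The proofs are adapted from `Pool/Agent/Y510/RG/Limw.lean` and `Pool/Agent/Y65/RG/Apx.lean`.
-/

set_option autoImplicit false

namespace Pool.Agent.Y824.PV

open MeasureTheory Set Filter Topology
open scoped ENNReal InnerProductSpace
open Pool.Agent.W695.KH (Eu EU EV VV Sm Pot Uu)
open Pool.Agent.Y506.RG (EW VW LC1 GD S_REG)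
open Pool.Agent.Y506.PV
open Pool.Agent.Y510.RG (conv ka KK VW_close ka_nonneg KK_nonneg)
open Pool.Agent.Y65.RG (cont_ell ae_ell int_dom tr tr_le tr_nonneg tr_lc)

/-- limits of weights -/
theorem limc : S_LIMC := by
  intro n κ δ w W _ hw hm hW hlim hev k hk T s hs hvar f hfd hf2 hgrad
  obtain ⟨A, hA⟩ : ∃ A : ℝ, A = ‖T.toContinuousLinearMap‖ := ⟨_, rfl⟩
  have hA0 : 0 ≤ A := by rw [hA]; exact norm_nonneg _
  have hTc : Continuous T := T.continuous_of_finiteDimensional
  have hT : ∀ x, ‖T x‖ ≤ A * ‖x‖ := fun x => by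
    rw [hA]; exact T.toContinuousLinearMap.le_opNorm x
  have hx1 : ∀ x : Eu (Fin n), ‖x‖ ≤ 1 + ‖x‖ ^ 2 := fun x => by nlinarith [sq_nonneg (‖x‖ - 1)]
  have hx2 : ∀ x : Eu (Fin n), 1 ≤ 1 + ‖x‖ ^ 2 := fun x => by nlinarith [sq_nonneg ‖x‖]
  -- the masses
  have hmj : Tendsto (fun j => ∫ x, W j x) atTop (𝓝 (∫ x, w x)) := by
    rw [tendsto_iff_norm_sub_tendsto_zero]
    refine squeeze_zero (fun j => norm_nonneg _) (fun j => ?_) hlim
    have h3 := conv (v := fun _ => (1:ℝ)) (B := 1) hw (hW j) continuous_const (fun x => by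
      rw [abs_one, one_mul]; exact hx2 x)
    simpa using h3
  have hmpos : ∀ᶠ j in atTop, 0 < ∫ x, W j x := hmj.eventually (lt_mem_nhds hm)
  have hka : Tendsto (fun j => ka w (W j)) atTop (𝓝 0) := by
    unfold ka
    have h1 := (hlim.div hmj hm.ne').mul_const (1 + KK w)
    rw [zero_div, zero_mul] at h1
    exact h1
  -- the function `f ∘ T`
  have hfc : Continuous (fun x => f (T x)) := hfd.continuous.comp hTc
  have hfb : ∀ x, |f (T x)| ≤ 1 * (1 + ‖x‖ ^ 2) := fun x => by
    have := hf2 (T x); have := hx2 x; linarith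
  have hfb2 : ∀ x, |f (T x) ^ 2| ≤ 1 * (1 + ‖x‖ ^ 2) := fun x => by
    have h1 := hf2 (T x)
    have h2 := hx2 x
    rw [abs_pow]
    have h3 := abs_nonneg (f (T x))
    nlinarith
  have hVf : Tendsto (fun j => VW (W j) fun x => f (T x)) atTop (𝓝 (VW w fun x => f (T x))) := by
    rw [tendsto_iff_norm_sub_tendsto_zero]
    have h1 : Tendsto (fun j => 1 * ka w (W j) + 1 * ka w (W j) *
        (2 * (1 * KK w) + 1 * ka w (W j))) atTop (𝓝 0) := by
      have := (hka.const_mul 1).add ((hka.const_mul 1).mul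
        ((hka.const_mul 1).const_add (2 * (1 * KK w))))
      simpa using this
    refine squeeze_zero' (Eventually.of_forall fun j => norm_nonneg _) ?_ h1
    filter_upwards [hmpos] with j hj
    exact VW_close hw (hW j) hm hj hfc hfb hfb2
  -- the variances of the linear forms
  obtain ⟨e, he⟩ : ∃ e : ℕ → ℝ, e = fun j => A ^ 2 * ka w (W j) + A * ka w (W j) *
      (2 * (A * KK w) + A * ka w (W j)) := ⟨_, rfl⟩
  have he0 : Tendsto e atTop (𝓝 0) := by
    rw [he]
    have := (hka.const_mul (A ^ 2)).add ((hka.const_mul A).mul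
        ((hka.const_mul A).const_add (2 * (A * KK w))))
    simpa using this
  have hmain : ∀ᶠ j in atTop, VW (W j) (fun x => f (T x)) ≤ δ := by
    filter_upwards [hmpos, hev, he0.eventually (gt_mem_nhds (by positivity : (0 : ℝ) < 3 * s))]
      with j hj hst hej
    refine hst k hk T (4 * s) (by linarith) ?_ f hfd hf2 ?_
    · intro θ hθ
      have hb1 : ∀ x, |⟪T x, θ⟫_ℝ| ≤ A * (1 + ‖x‖ ^ 2) := fun x => by
        have h1 := abs_real_inner_le_norm (T x) θ
        rw [hθ, mul_one] at h1
        have h2 := hT x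
        have h3 := mul_le_mul_of_nonneg_left (hx1 x) hA0
        linarith
      have hb2 : ∀ x, |⟪T x, θ⟫_ℝ ^ 2| ≤ A ^ 2 * (1 + ‖x‖ ^ 2) := fun x => by
        have h1 := abs_real_inner_le_norm (T x) θ
        rw [hθ, mul_one] at h1
        have h2 := pow_le_pow_left₀ (abs_nonneg _) (h1.trans (hT x)) 2
        rw [abs_pow]
        have h3 := sq_nonneg A
        nlinarith
      have hc1 : Continuous (fun x => ⟪T x, θ⟫_ℝ) := hTc.inner continuous_const
      have h1 := VW_close hw (hW j) hm hj hc1 hb1 hb2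
      have h2 := hvar θ hθ
      have h3 := (abs_le.1 h1).2
      rw [he] at hej
      linarith
    · intro y
      refine (hgrad y).trans (le_of_eq ?_)
      have h4 : Real.sqrt (4 * s) = 2 * Real.sqrt s := by
        rw [Real.sqrt_mul (by norm_num), show (4 : ℝ) = 2 ^ 2 by norm_num,
          Real.sqrt_sq (by norm_num)]
      rw [h4, div_div]
  exact le_of_tendsto hVf hmain

section

variable {N n : ℕ} (ell : Eu (Fin n) →ₗ[ℝ] Eu (Fin N))

/-- Step 1 : bounded factors with bounded supports -/
theorem step1 (h1 : S_LIMC) (h2 : S_REG) {κ δ : ℝ} (hκ : 0 < κ)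
    (hinj : ∀ x, ell x = 0 → x = 0) (hnz : ∀ i, ∃ x, ell x i ≠ 0)
    (hS : ∀ H : Fin N → ℝ → ℝ, (∀ i, GD (H i)) → CcW κ δ fun x => ∏ i, H i (ell x i))
    (R : ℝ) (hR : 0 < R) (h : Fin N → ℝ → ℝ) (hl : ∀ i, LC1 (h i)) (hb : ∀ i s, h i s ≤ R)
    (hs : ∀ i s, R < |s| → h i s = 0)
    (hint : Integrable (fun x => (1 + ‖x‖ ^ 2) * ∏ i, h i (ell x i)))
    (hpos : 0 < ∫ x, ∏ i, h i (ell x i)) : CcW (κ / 2) δ fun x => ∏ i, h i (ell x i) := by
  classical
  have hint1 : ∀ i, Integrable (h i) := by
    intro i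
    have h3 : h i = (Icc (-R) R).indicator (h i) := by
      funext s
      by_cases hs' : s ∈ Icc (-R) R
      · rw [indicator_of_mem hs']
      · rw [indicator_of_notMem hs']
        apply hs i s
        by_contra hcon
        exact hs' (abs_le.1 (not_lt.1 hcon))
    rw [h3, integrable_indicator_iff measurableSet_Icc]
    refine Measure.integrableOn_of_bounded (M := R) ?_ (hl i).meas.aestronglyMeasurable ?_
    · rw [Real.volume_Icc]; exact ENNReal.ofReal_ne_top
    · refine Filter.Eventually.of_forall fun s => ?_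
      rw [Real.norm_of_nonneg ((hl i).nonneg s)]
      exact hb i s
  have hpos1 : ∀ i, 0 < ∫ s, h i s := by
    intro i
    rcases (integral_nonneg (f := h i) (hl i).nonneg).lt_or_eq with h3 | h3
    · exact h3
    exfalso
    have h4 : h i =ᵐ[volume] 0 :=
      (integral_eq_zero_iff_of_nonneg (hl i).nonneg (hint1 i)).1 h3.symm
    have h5 : ∀ᵐ x, ell x i ∈ (h i) ⁻¹' {0} :=
      ae_ell ell hnz i ((hl i).meas (measurableSet_singleton 0)) h4
    have h6 : (fun x => ∏ i, h i (ell x i)) =ᵐ[volume] 0 := by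
      filter_upwards [h5] with x hx
      exact Finset.prod_eq_zero (Finset.mem_univ i) hx
    rw [integral_congr_ae h6] at hpos
    simp at hpos
  choose H K hK hGD hbd E hE hlim using fun i => h2 (h i) R (hl i) hR (hs i) (hpos1 i)
  have hdom := int_dom ell hinj R K hK
  have hHpos : ∀ i j s, 0 ≤ H i j s := fun i j s => ((hGD i j).pos s).le
  have hWle : ∀ j x, ∏ i, H i j (ell x i) ≤
      ∏ i, (K i * Real.exp (-(max 0 (|ell x i| - R)) ^ 2 / 2)) := fun j x =>
    Finset.prod_le_prod (fun i _ => hHpos i j _) fun i _ => hbd i j _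
  have hWpos : ∀ j x, 0 ≤ ∏ i, H i j (ell x i) := fun j x =>
    Finset.prod_nonneg fun i _ => hHpos i j _
  have hwpos : ∀ x, 0 ≤ ∏ i, h i (ell x i) := fun x =>
    Finset.prod_nonneg fun i _ => (hl i).nonneg _
  have hWc : ∀ j, Continuous fun x => ∏ i, H i j (ell x i) := fun j =>
    continuous_finsetProd _ fun i _ => (Pool.Agent.Y65.RG.GD.continuous (hGD i j)).comp (cont_ell ell i)
  have hwm : Measurable fun x => ∏ i, h i (ell x i) :=
    Finset.measurable_prod _ fun i _ => (hl i).meas.comp (cont_ell ell i).measurable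
  have hae : ∀ᵐ x, ∀ i, ell x i ∉ E i := by
    rw [ae_all_iff]
    intro i
    exact ae_ell ell hnz i (hE i).measurableSet.compl ((hE i).countable.ae_notMem volume)
  refine h1 n κ δ _ (fun j x => ∏ i, H i j (ell x i)) hκ hint hpos ?_ ?_ ?_
  · intro j
    have hcc : Continuous fun x : Eu (Fin n) => (1 + ‖x‖ ^ 2) * ∏ i, H i j (ell x i) :=
      Continuous.mul (by fun_prop) (hWc j)
    refine hdom.mono' hcc.aestronglyMeasurable (Filter.Eventually.of_forall fun x => ?_)
    rw [Real.norm_of_nonneg (mul_nonneg (by positivity) (hWpos j x))]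
    exact mul_le_mul_of_nonneg_left (hWle j x) (by positivity)
  · have h0 : (0 : ℝ) = ∫ _x : Eu (Fin n), (0 : ℝ) := by simp
    rw [h0]
    refine tendsto_integral_of_dominated_convergence
      (fun x => (1 + ‖x‖ ^ 2) * ∏ i, (K i * Real.exp (-(max 0 (|ell x i| - R)) ^ 2 / 2)) +
        (1 + ‖x‖ ^ 2) * ∏ i, h i (ell x i)) ?_ (hdom.add hint) ?_ ?_
    · intro j
      have hm : Measurable fun x : Eu (Fin n) =>
          (1 + ‖x‖ ^ 2) * |∏ i, H i j (ell x i) - ∏ i, h i (ell x i)| := by
        refine Measurable.mul (by fun_prop) ?_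
        exact (continuous_abs.measurable.comp ((hWc j).measurable.sub hwm))
      exact hm.aestronglyMeasurable
    · intro j
      refine Filter.Eventually.of_forall fun x => ?_
      rw [Real.norm_of_nonneg (by positivity), ← mul_add]
      refine mul_le_mul_of_nonneg_left ?_ (by positivity)
      have := hWle j x
      have := hWpos j x
      have := hwpos x
      rw [abs_le]
      constructor <;> linarith
    · filter_upwards [hae] with x hx
      have h3 : Tendsto (fun j => ∏ i, H i j (ell x i)) atTop (𝓝 (∏ i, h i (ell x i))) :=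
        tendsto_finsetProd _ fun i _ => hlim i _ (hx i)
      have h4 : Tendsto (fun j => (1 + ‖x‖ ^ 2) * |∏ i, H i j (ell x i) - ∏ i, h i (ell x i)|)
          atTop (𝓝 ((1 + ‖x‖ ^ 2) * |∏ i, h i (ell x i) - ∏ i, h i (ell x i)|)) :=
        (h3.sub_const _).abs.const_mul _
      simpa using h4
  · exact Filter.Eventually.of_forall fun j => hS (fun i => H i j) fun i => hGD i j

end

/-- **from smooth weights to general log-concave ridge functions** -/
theorem capx : S_CAPX := by
  classical
  have h1 : S_LIMC := limc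
  have h2 : S_REG := Pool.Agent.Y333.RG.reg
  intro N n κ δ ell hκ hinj hnz hS h hl hint hpos
  set w : Eu (Fin n) → ℝ := fun x => ∏ i, h i (ell x i) with hw
  let W : ℕ → Eu (Fin n) → ℝ := fun j x => ∏ i, tr (j + 1) (h i) (ell x i)
  have hwpos : ∀ x, 0 ≤ w x := fun x => Finset.prod_nonneg fun i _ => (hl i).nonneg _
  have hWpos : ∀ j x, 0 ≤ W j x := fun j x =>
    Finset.prod_nonneg fun i _ => tr_nonneg (by positivity) (hl i).nonneg _
  have hWle : ∀ j x, W j x ≤ w x := fun j x =>
    Finset.prod_le_prod (fun i _ => tr_nonneg (by positivity) (hl i).nonneg _)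
      fun i _ => tr_le (hl i).nonneg _
  have hwm : Measurable w :=
    Finset.measurable_prod _ fun i _ => (hl i).meas.comp (cont_ell ell i).measurable
  have hWm : ∀ j, Measurable (W j) := fun j =>
    Finset.measurable_prod _ fun i _ =>
      (tr_lc (by positivity) (hl i)).meas.comp (cont_ell ell i).measurable
  have hWint : ∀ j, Integrable (fun x => (1 + ‖x‖ ^ 2) * W j x) := by
    intro j
    refine hint.mono' (Measurable.mul (by fun_prop) (hWm j)).aestronglyMeasurable
      (Filter.Eventually.of_forall fun x => ?_)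
    rw [Real.norm_of_nonneg (mul_nonneg (by positivity) (hWpos j x))]
    exact mul_le_mul_of_nonneg_left (hWle j x) (by positivity)
  have hev : ∀ x, ∀ᶠ j : ℕ in atTop, W j x = w x := by
    intro x
    have h3 : ∀ i, ∀ᶠ j : ℕ in atTop, tr (j + 1) (h i) (ell x i) = h i (ell x i) := by
      intro i
      obtain ⟨m, hm⟩ := exists_nat_ge (max |ell x i| (h i (ell x i)))
      filter_upwards [eventually_ge_atTop m] with j hj
      have hj' : (m : ℝ) ≤ j := by exact_mod_cast hj
      have h4 : |ell x i| ≤ (j : ℝ) + 1 := by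
        have := le_max_left |ell x i| (h i (ell x i))
        linarith
      have h5 : h i (ell x i) ≤ (j : ℝ) + 1 := by
        have := le_max_right |ell x i| (h i (ell x i))
        linarith
      simp only [tr, if_pos h4, min_eq_left h5]
    filter_upwards [Filter.eventually_all.2 h3] with j hj
    exact Finset.prod_congr rfl fun i _ => hj i
  have hlim1 : Tendsto (fun j => ∫ x, (1 + ‖x‖ ^ 2) * |W j x - w x|) atTop (𝓝 0) := by
    have h0 : (0 : ℝ) = ∫ _x : Eu (Fin n), (0 : ℝ) := by simp
    rw [h0]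
    refine tendsto_integral_of_dominated_convergence
      (fun x => (1 + ‖x‖ ^ 2) * w x) ?_ hint ?_ ?_
    · intro j
      exact (Measurable.mul (by fun_prop)
        (continuous_abs.measurable.comp ((hWm j).sub hwm))).aestronglyMeasurable
    · intro j
      refine Filter.Eventually.of_forall fun x => ?_
      rw [Real.norm_of_nonneg (by positivity)]
      refine mul_le_mul_of_nonneg_left ?_ (by positivity)
      have := hWle j x
      have := hWpos j x
      have := hwpos x
      rw [abs_le]
      constructor <;> linarith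
    · refine Filter.Eventually.of_forall fun x => ?_
      refine tendsto_const_nhds.congr' ?_
      filter_upwards [hev x] with j hj
      rw [hj]; simp
  have hlim2 : Tendsto (fun j => ∫ x, W j x) atTop (𝓝 (∫ x, w x)) := by
    refine tendsto_integral_of_dominated_convergence
      (fun x => (1 + ‖x‖ ^ 2) * w x) (fun j => (hWm j).aestronglyMeasurable) hint ?_ ?_
    · intro j
      refine Filter.Eventually.of_forall fun x => ?_
      rw [Real.norm_of_nonneg (hWpos j x)]
      refine (hWle j x).trans ?_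
      nlinarith [hwpos x, sq_nonneg ‖x‖]
    · refine Filter.Eventually.of_forall fun x => ?_
      refine tendsto_const_nhds.congr' ?_
      filter_upwards [hev x] with j hj
      rw [hj]
  have e4 : κ / 4 = κ / 2 / 2 := by ring
  rw [e4]
  refine h1 n (κ / 2) δ w W (by positivity) hint hpos hWint hlim1 ?_
  have hpos2 : ∀ᶠ j in atTop, 0 < ∫ x, W j x := hlim2.eventually (lt_mem_nhds hpos)
  filter_upwards [hpos2] with j hj
  refine step1 ell h1 h2 hκ hinj hnz hS ((j : ℝ) + 1) (by positivity)
    (fun i => tr ((j : ℝ) + 1) (h i)) (fun i => tr_lc (by positivity) (hl i)) ?_ ?_ (hWint j) hj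
  · intro i s
    simp only [tr]
    split_ifs
    · exact min_le_right _ _
    · positivity
  · intro i s hs
    simp only [tr, if_neg (not_le.2 hs)]

end Pool.Agent.Y824.PV
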